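import Mathlib

/-! # The real inequality behind the rigidity theorem

`t, m2, m3, m4` are the means of `y, y^2, y^3, y^4` over the conjugates of a totally nonnegative
algebraic integer `y`; the hypotheses are instances of the inequality between arithmetic and
geometric means. -/

set_option autoImplicit false

namespace Pool.Agent.Sar74

theorem Ine_var {t m2 : ℝ} (hk2 : ∀ k : ℤ, 1 ≤ m2 - 2 * k * t + (k : ℝ) ^ 2) :
    m2 - t ^ 2 ≥ 1 - (t - ⌊t⌋) * (1 - (t - ⌊t⌋)) ∧ m2 - t ^ 2 ≥ 3 / 4 := by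
  have h1 := hk2 ⌊t⌋
  have h2 := hk2 (⌊t⌋ + 1)
  have h3 : (0 : ℝ) ≤ t - ⌊t⌋ := by linarith [Int.floor_le t]
  have h4 : t - ⌊t⌋ ≤ 1 := by linarith [(Int.lt_floor_add_one t).le]
  push_cast at h2
  set k : ℝ := (⌊t⌋ : ℝ)
  have h5 : m2 - t ^ 2 ≥ 1 - (t - k) * (1 - (t - k)) := by
    have h6 : (1 - (t - k)) * 1 ≤ (1 - (t - k)) * (m2 - 2 * k * t + k ^ 2) :=
      mul_le_mul_of_nonneg_left h1 (by linarith)
    have h7 : (t - k) * 1 ≤ (t - k) * (m2 - 2 * (k + 1) * t + (k + 1) ^ 2) :=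
      mul_le_mul_of_nonneg_left h2 h3
    nlinarith
  exact ⟨h5, by nlinarith [sq_nonneg (t - k - 1 / 2)]⟩

theorem ine {t m2 m3 m4 : ℝ} (ht : 1 < t)
    (hk2 : ∀ k : ℤ, 1 ≤ m2 - 2 * k * t + (k : ℝ) ^ 2)
    (hk3 : ∀ k : ℤ, 1 ≤ m3 - 2 * k * m2 + (k : ℝ) ^ 2 * t)
    (h0 : 0 ≤ m3 - 2 * t * m2 + t ^ 3)
    (hq0 : 1 ≤ m4 - 6 * m3 + 11 * m2 - 6 * t + 1)
    (hq1 : 1 ≤ m4 - 8 * m3 + 18 * m2 - 8 * t + 1)
    (hq2 : 1 ≤ m4 - 8 * m3 + 20 * m2 - 16 * t + 4) :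
    0 < m3 - t * m2 - 3 * m2 + 3 * t ^ 2 + (m4 - 8 * m3 + 19 * m2 - 12 * t) / 4 := by
  obtain ⟨hV, hV'⟩ := Ine_var hk2
  have k2 := hk3 2
  have k3 := hk3 3
  have k4 := hk3 4
  push_cast at k2 k3 k4
  rcases le_or_gt t 2 with h2 | h2
  · -- `1 < t ≤ 2`
    have e1 : (2 - t) / 2 * 1 ≤ (2 - t) / 2 * (m3 - 2 * 2 * m2 + 2 ^ 2 * t) :=
      mul_le_mul_of_nonneg_left k2 (by linarith)
    have e2 : (t - 1) / 2 * 1 ≤ (t - 1) / 2 * (m3 - 2 * 3 * m2 + 3 ^ 2 * t) :=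
      mul_le_mul_of_nonneg_left k3 (by linarith)
    nlinarith [sq_pos_of_pos (sub_pos.2 ht)]
  rcases le_or_gt t (11 / 4) with h3 | h3
  · -- `2 < t ≤ 11/4`
    have e1 : (11 / 4 - t) / 2 * 1 ≤ (11 / 4 - t) / 2 * (m3 - 2 * 2 * m2 + 2 ^ 2 * t) :=
      mul_le_mul_of_nonneg_left k2 (by linarith)
    have e2 : (t - 3 / 4) / 2 * 1 ≤ (t - 3 / 4) / 2 * (m3 - 2 * 3 * m2 + 3 ^ 2 * t) :=
      mul_le_mul_of_nonneg_left k3 (by linarith)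
    have e3 : 0 < (t - 2) * (t - 1 / 4) := mul_pos (by linarith) (by linarith)
    nlinarith
  -- the bound for the quartic part
  have e4 : m4 - 8 * m3 + 19 * m2 - 12 * t ≥ -3 / 2 := by linarith
  rcases le_or_gt t 3 with h4 | h4
  · have e1 : (3 - t) / 2 * 1 ≤ (3 - t) / 2 * (m3 - 2 * 2 * m2 + 2 ^ 2 * t) :=
      mul_le_mul_of_nonneg_left k2 (by linarith)
    have e2 : (t - 1) / 2 * 1 ≤ (t - 1) / 2 * (m3 - 2 * 3 * m2 + 3 ^ 2 * t) :=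
      mul_le_mul_of_nonneg_left k3 (by linarith)
    have e3 : 3 / 4 < (t - 1) * (t - 2) := by nlinarith
    nlinarith
  rcases lt_or_ge t 4 with h5 | h5
  · have hf : ⌊t⌋ = 3 := by
      rw [Int.floor_eq_iff]
      exact ⟨by exact_mod_cast h4.le, by push_cast; linarith⟩
    rw [hf] at hV
    push_cast at hV
    obtain ⟨l, rfl⟩ : ∃ l, t = 3 + l := ⟨t - 3, by ring⟩
    have hl0 : 0 < l := by linarith
    have hl1 : l < 1 := by linarith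
    have e1 : (1 - l) * 1 ≤ (1 - l) * (m3 - 2 * 3 * m2 + 3 ^ 2 * (3 + l)) :=
      mul_le_mul_of_nonneg_left k3 (by linarith)
    have e2 : l * 1 ≤ l * (m3 - 2 * 4 * m2 + 4 ^ 2 * (3 + l)) :=
      mul_le_mul_of_nonneg_left k4 hl0.le
    have hV2 : m2 - (3 + l) ^ 2 ≥ 1 - l * (1 - l) := by
      have : (3 + l - 3) = l := by ring
      rw [this] at hV
      exact hV
    have e3 : l * (1 - l * (1 - l)) ≤ l * (m2 - (3 + l) ^ 2) :=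
      mul_le_mul_of_nonneg_left hV2 hl0.le
    have e5 : 0 < 5 / 8 - 2 * l + l ^ 2 + 2 * l ^ 3 := by
      nlinarith [mul_nonneg hl0.le (sq_nonneg (l - 3 / 7)), sq_nonneg (l - 3 / 7)]
    nlinarith
  · have e1 : (t - 3) * (3 / 4) ≤ (t - 3) * (m2 - t ^ 2) :=
      mul_le_mul_of_nonneg_left hV' (by linarith)
    nlinarith

theorem ine4 {t m2 m3 m4 c : ℝ} (hc : c = 1 ∨ c = 2) (h2 : m2 = 4 * t - c)
    (h3 : m3 = 4 * m2 - c * t) (h4 : m4 = 4 * m3 - c * m2)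
    (hk2 : ∀ k : ℤ, 1 ≤ m2 - 2 * k * t + (k : ℝ) ^ 2) :
    0 < m3 - t * m2 - 3 * m2 + 3 * t ^ 2 + (m4 - 8 * m3 + 19 * m2 - 12 * t) / 4 := by
  obtain ⟨-, hV'⟩ := Ine_var hk2
  subst h4 h3 h2
  rcases hc with rfl | rfl <;> nlinarith

end Pool.Agent.Sar74
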